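import Pool.Agent.W422.GC.Stms
import Pool.Agent.W437.HD.Deriv

set_option autoImplicit false

namespace Pool.Agent.W605.GC.Der

open Pool.Agent.W422.GC

theorem main : S_DER := by
  intro r a ha
  have h : ∀ i : Fin r, ∃ δ : Derivation ℚ ℂ ℂ, ∀ j, δ (a j) = if i = j then 1 else 0 := fun i =>
    Pool.Agent.W437.HD.exists_derivation ha fun j => if i = j then 1 else 0
  choose δ hδ using h
  exact ⟨fun i => (δ i).restrictScalars ℤ, fun i j => hδ i j⟩

end Pool.Agent.W605.GC.Der
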